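import Mathlib
import Pool.Agent.Lib.helper12.QSim

namespace Pool.Agent.H.MP_dd30de_lc
open scoped InnerProductSpace
open Finset

variable {H : Type*} [NormedAddCommGroup H] [InnerProductSpace ℂ H] [CompleteSpace H]

lemma geomZ (q : ℝ) (h0 : 0 ≤ q) (h1 : q < 1) (n : ℤ) :
    HasSum (fun m : ℤ => q ^ (m - n).natAbs) ((1 + q) / (1 - q)) := by
  have a : HasSum (fun d : ℤ => q ^ d.natAbs) ((1 - q)⁻¹ + q * (1 - q)⁻¹) := by
    refine HasSum.of_nat_of_neg_add_one ?_ ?_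
    · simpa using hasSum_geometric_of_lt_one h0 h1
    · have := (hasSum_geometric_of_lt_one h0 h1).mul_left q
      refine this.congr_fun ?_
      intro k
      have : (-((k : ℤ) + 1)).natAbs = k + 1 := by omega
      rw [this, pow_succ']
  have e : (1 + q) / (1 - q) = (1 - q)⁻¹ + q * (1 - q)⁻¹ := by ring
  rw [e]
  have b := (Equiv.subRight n).hasSum_iff.2 a
  simpa only [Function.comp_def, Equiv.subRight_apply] using b

noncomputable abbrev zp (T : unitary (H →L[ℂ] H)) (n : ℤ) : H →L[ℂ] H := (T ^ n : unitary (H →L[ℂ] H)).1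

lemma zp_add (T : unitary (H →L[ℂ] H)) (n m : ℤ) (x : H) :
    zp T (n + m) x = zp T n (zp T m x) := by
  simp only [zp, zpow_add]; rfl

lemma zp_inner (T : unitary (H →L[ℂ] H)) (n : ℤ) (x y : H) :
    ⟪zp T n x, zp T n y⟫_ℂ = ⟪x, y⟫_ℂ :=
  ContinuousLinearMap.inner_map_map_of_mem_unitary (T ^ n).2 x y

lemma zp_norm (T : unitary (H →L[ℂ] H)) (n : ℤ) (x : H) : ‖zp T n x‖ = ‖x‖ :=
  ContinuousLinearMap.norm_map_of_mem_unitary (T ^ n).2 x

lemma zp_zero (T : unitary (H →L[ℂ] H)) (x : H) : zp T 0 x = x := by simp [zp]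

lemma zp_one (T : unitary (H →L[ℂ] H)) : zp T 1 = T.1 := by simp [zp]

lemma sa_inner {P : H →L[ℂ] H} (h : star P = P) (x y : H) : ⟪P x, y⟫_ℂ = ⟪x, P y⟫_ℂ := by
  conv_lhs => rw [← h, ContinuousLinearMap.star_eq_adjoint]
  exact ContinuousLinearMap.adjoint_inner_left _ _ _

def Wand (T : unitary (H →L[ℂ] H)) (P : H →L[ℂ] H) : Prop :=
  star P = P ∧ P * P = P ∧
    ∀ n : ℕ, 1 ≤ n → ∀ x, ‖P (zp T n (P x))‖ ≤ (1 / 4 : ℝ) ^ n * ‖x‖

lemma Wand.inner {T : unitary (H →L[ℂ] H)} {P : H →L[ℂ] H} (h : Wand T P) (n m : ℤ) (hnm : n ≠ m)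
    (x y : H) (hx : P x = x) (hy : P y = y) :
    ‖⟪zp T n x, zp T m y⟫_ℂ‖ ≤ (1 / 4 : ℝ) ^ (m - n).natAbs * (‖x‖ * ‖y‖) := by
  wlog hlt : n < m generalizing n m x y
  · have := this m n hnm.symm y x hy hx (by omega)
    rw [norm_inner_symm, mul_comm ‖x‖]
    rwa [show (m - n).natAbs = (n - m).natAbs by omega]
  obtain ⟨k, hk⟩ : ∃ k : ℕ, m = n + k := ⟨(m - n).toNat, by omega⟩
  have e : (m - n).natAbs = k := by omega
  rw [e, hk, zp_add, zp_inner, ← hx, sa_inner h.1, hx]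
  have := h.2.2 k (by omega) y
  rw [hy] at this
  calc _ ≤ ‖x‖ * ‖P (zp T k y)‖ := norm_inner_le_norm _ _
    _ ≤ ‖x‖ * ((1 / 4 : ℝ) ^ k * ‖y‖) := by gcongr
    _ = _ := by ring

lemma Wand.riesz {T : unitary (H →L[ℂ] H)} {P : H →L[ℂ] H} (h : Wand T P) (η : ℤ → H)
    (hη : ∀ n, P (η n) = η n) (s : Finset ℤ) :
    |‖∑ n ∈ s, zp T n (η n)‖ ^ 2 - ∑ n ∈ s, ‖η n‖ ^ 2| ≤ 2 / 3 * ∑ n ∈ s, ‖η n‖ ^ 2 := by
  let q : ℤ → ℤ → ℝ := fun n m => if n = m then 0 else (1 / 4 : ℝ) ^ (m - n).natAbs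
  have hq : ∀ n, ∑ m ∈ s, q n m ≤ 2 / 3 := by
    intro n
    have a := (geomZ (1 / 4) (by norm_num) (by norm_num) n).sub (hasSum_ite_eq n (1 : ℝ))
    have b : HasSum (q n) ((1 + 1 / 4) / (1 - 1 / 4) - 1) := by
      refine a.congr_fun fun m => ?_
      by_cases hm : m = n
      · simp [q, hm]
      · simp [q, hm, Ne.symm hm]
    refine (sum_le_hasSum s (fun m _ => ?_) b).trans (by norm_num)
    simp only [q]; split_ifs <;> positivity
  have hs : ∀ n m, q n m = q m n := by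
    intro n m
    simp only [q, eq_comm (a := n), show (m - n).natAbs = (n - m).natAbs by omega]
  have e1 : ‖∑ n ∈ s, zp T n (η n)‖ ^ 2 - ∑ n ∈ s, ‖η n‖ ^ 2
      = ∑ n ∈ s, ∑ m ∈ s, if n = m then 0 else (⟪zp T n (η n), zp T m (η m)⟫_ℂ).re := by
    rw [← inner_self_eq_norm_sq (𝕜 := ℂ), sum_inner, map_sum, ← sum_sub_distrib]
    refine sum_congr rfl fun n hn => ?_
    rw [inner_sum, map_sum, ← add_sum_erase s _ hn, ← add_sum_erase s _ hn, if_pos rfl, zp_inner,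
      inner_self_eq_norm_sq, zero_add, add_sub_cancel_left]
    refine sum_congr rfl fun m hm => ?_
    rw [if_neg (ne_of_mem_erase hm).symm]; rfl
  rw [e1]
  calc _ ≤ ∑ n ∈ s, ∑ m ∈ s, (q n m * ‖η n‖ ^ 2 / 2 + q m n * ‖η m‖ ^ 2 / 2) := by
        refine (abs_sum_le_sum_abs _ _).trans (sum_le_sum fun n _ => ?_)
        refine (abs_sum_le_sum_abs _ _).trans (sum_le_sum fun m _ => ?_)
        rw [← hs n m]
        by_cases hnm : n = m
        · simp [q, hnm]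
        · simp only [q, if_neg hnm]
          refine ((Complex.abs_re_le_norm _).trans (h.inner n m hnm _ _ (hη n) (hη m))).trans ?_
          have : (0 : ℝ) ≤ (1 / 4 : ℝ) ^ (m - n).natAbs := by positivity
          nlinarith [mul_nonneg this (sq_nonneg (‖η n‖ - ‖η m‖))]
    _ = ∑ n ∈ s, (∑ m ∈ s, q n m) * ‖η n‖ ^ 2 := by
        simp only [sum_add_distrib]
        rw [sum_comm (f := fun n m => q m n * ‖η m‖ ^ 2 / 2), ← sum_add_distrib]
        refine sum_congr rfl fun n _ => ?_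
        rw [← sum_add_distrib, sum_mul]
        exact sum_congr rfl fun m _ => by ring
    _ ≤ _ := by
        rw [mul_sum]
        exact sum_le_sum fun n _ => mul_le_mul_of_nonneg_right (hq n) (by positivity)

lemma Wand.smooth {T : unitary (H →L[ℂ] H)} {P : H →L[ℂ] H} (h : Wand T P) (x : H)
    (s : Finset ℤ) : ∑ n ∈ s, ‖P (zp T (-n) x)‖ ^ 2 ≤ 2 * ‖x‖ ^ 2 := by
  have hη : ∀ n, P (P (zp T (-n) x)) = P (zp T (-n) x) := fun n =>
    congrArg (fun A : H →L[ℂ] H => A (zp T (-n) x)) h.2.1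
  have r := (abs_le.1 (h.riesz (fun n => P (zp T (-n) x)) hη s)).2
  set S := ∑ n ∈ s, ‖P (zp T (-n) x)‖ ^ 2 with hS
  set v := ∑ n ∈ s, zp T n (P (zp T (-n) x)) with hv
  have e : S = (⟪v, x⟫_ℂ).re := by
    rw [hv, sum_inner, Complex.re_sum]
    refine sum_congr rfl fun n _ => ?_
    have : x = zp T n (zp T (-n) x) := by rw [← zp_add, add_neg_cancel, zp_zero]
    conv_rhs => enter [1, 3]; rw [this]
    rw [zp_inner, ← hη, sa_inner h.1, hη]
    exact (inner_self_eq_norm_sq (𝕜 := ℂ) _).symm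
  have l : S ≤ ‖v‖ * ‖x‖ := e ▸ (Complex.re_le_norm _).trans (norm_inner_le_norm _ _)
  have : 0 ≤ S := sum_nonneg fun _ _ => by positivity
  nlinarith [sq_nonneg (‖v‖ - 2 * ‖x‖), sq_nonneg ‖x‖]

def Good (T : unitary (H →L[ℂ] H)) : Prop :=
  ∃ (P : ℤ → H →L[ℂ] H) (ι : H →ₗᵢ[ℂ] H), (∀ j, Wand T (P j)) ∧
    (∀ x, (∀ j, P j x = 0) → x = 0) ∧ ∀ x, P 0 (ι x) = ι x

lemma Wand.norm_le {T : unitary (H →L[ℂ] H)} {P : H →L[ℂ] H} (h : Wand T P) : ‖P‖ ≤ 1 :=
  IsStarProjection.norm_le P ⟨h.2.1, h.1⟩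

lemma Good.exA {T : unitary (H →L[ℂ] H)} (h : Good T) :
    ∃ A : H →L[ℂ] H, (∀ x, A x = 0 → x = 0) ∧
      ∀ x (s : Finset ℤ), ∑ n ∈ s, ‖A (zp T (-n) x)‖ ^ 2 ≤ 18 * ‖x‖ ^ 2 := by
  obtain ⟨P, -, h1, h2, -⟩ := h
  let c : ℤ → ℝ := fun j => (1 / 2 : ℝ) ^ (j - 0).natAbs
  have hc : HasSum c 3 := by
    have := geomZ (1 / 2) (by norm_num) (by norm_num) 0
    norm_num at this ⊢
    simpa [c] using this
  have hc0 : ∀ j, 0 < c j := fun j => by positivity
  have hs : Summable (fun j => (c j : ℂ) • P j) := by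
    refine Summable.of_norm_bounded hc.summable fun j => ?_
    rw [norm_smul, Complex.norm_real, Real.norm_of_nonneg (hc0 j).le]
    exact mul_le_of_le_one_right (hc0 j).le (h1 j).norm_le
  have hx : ∀ x, HasSum (fun j => (c j : ℂ) • P j x) ((∑' j, (c j : ℂ) • P j) x) := fun x =>
    hs.hasSum.mapL (ContinuousLinearMap.apply ℂ H x)
  have hb : ∀ x j, ‖P j x‖ ≤ ‖x‖ := fun x j =>
    ((P j).le_opNorm x).trans (mul_le_of_le_one_left (norm_nonneg _) (h1 j).norm_le)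
  have hs2 : ∀ x, Summable (fun j => c j * ‖P j x‖ ^ 2) := fun x =>
    Summable.of_nonneg_of_le (fun j => mul_nonneg (hc0 j).le (sq_nonneg _))
      (fun j => mul_le_mul_of_nonneg_left (pow_le_pow_left₀ (norm_nonneg _) (hb x j) 2) (hc0 j).le)
      (hc.summable.mul_right _)
  refine ⟨∑' j, (c j : ℂ) • P j, fun x h0 => h2 x fun j => ?_, fun x s => ?_⟩
  · have a := (hx x).mapL ((Complex.reCLM).comp ((innerSL ℂ x).restrictScalars ℝ))
    rw [h0, map_zero] at a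
    have b : HasSum (fun j => c j * ‖P j x‖ ^ 2) 0 := by
      refine a.congr_fun fun j => ?_
      have e : ⟪x, P j x⟫_ℂ = ⟪P j x, P j x⟫_ℂ := by
        rw [sa_inner (h1 j).1]
        exact congrArg (fun A : H →L[ℂ] H => ⟪x, A x⟫_ℂ) (h1 j).2.1.symm
      simp [e, ← Complex.ofReal_pow]
    have d := (hasSum_zero_iff_of_nonneg (fun j => mul_nonneg (hc0 j).le (sq_nonneg _))).1 b
    have := congrFun d j
    simpa [(hc0 j).ne'] using this
  · have k : ∀ y, ‖(∑' j, (c j : ℂ) • P j) y‖ ^ 2 ≤ 3 * ∑' j, c j * ‖P j y‖ ^ 2 := by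
      intro y
      set a := ‖(∑' j, (c j : ℂ) • P j) y‖
      have l : a ≤ ∑' j, c j * ‖P j y‖ := by
        have sm : Summable (fun j => c j * ‖P j y‖) :=
          Summable.of_nonneg_of_le (fun j => mul_nonneg (hc0 j).le (norm_nonneg _))
            (fun j => mul_le_mul_of_nonneg_left (hb y j) (hc0 j).le) (hc.summable.mul_right _)
        refine (hx y).norm_le_of_bounded sm.hasSum fun j => ?_
        rw [norm_smul, Complex.norm_real, Real.norm_of_nonneg (hc0 j).le]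
      have sm : Summable (fun j => c j * ‖P j y‖) :=
          Summable.of_nonneg_of_le (fun j => mul_nonneg (hc0 j).le (norm_nonneg _))
            (fun j => mul_le_mul_of_nonneg_left (hb y j) (hc0 j).le) (hc.summable.mul_right _)
      have l2 : 2 * (a / 3) * ∑' j, c j * ‖P j y‖ ≤ (∑' j, c j * ‖P j y‖ ^ 2) + 3 * (a / 3) ^ 2 := by
        refine hasSum_le (fun j => ?_) (sm.hasSum.mul_left _)
          ((hs2 y).hasSum.add (hc.mul_right _))
        nlinarith [mul_nonneg (hc0 j).le (sq_nonneg (‖P j y‖ - a / 3))]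
      have : 0 ≤ a := norm_nonneg _
      nlinarith [mul_le_mul_of_nonneg_left l this]
    calc _ ≤ ∑ n ∈ s, 3 * ∑' j, c j * ‖P j (zp T (-n) x)‖ ^ 2 := sum_le_sum fun n _ => k _
      _ ≤ 3 * (3 * (2 * ‖x‖ ^ 2)) := by
        rw [← mul_sum]
        gcongr
        refine hasSum_le (fun j => ?_) (hasSum_sum fun n _ => (hs2 (zp T (-n) x)).hasSum)
          (hc.mul_right _)
        rw [← mul_sum]
        exact mul_le_mul_of_nonneg_left ((h1 j).smooth x s) (hc0 j).le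
      _ = _ := by ring

lemma Good.exF {T T' : unitary (H →L[ℂ] H)} (h : Good T) (h' : Good T') :
    ∃ F : H →L[ℂ] H, Function.Injective F ∧ F * T.1 = T'.1 * F := by
  obtain ⟨A, hA, hA'⟩ := h.exA
  obtain ⟨P, ι, h1, -, h3⟩ := h'
  let η : H → ℤ → H := fun x n => ι (A (zp T (-n) x))
  have hr := fun x s => abs_le.1 ((h1 0).riesz (η x) (fun n => h3 _) s)
  have hn : ∀ x n, ‖η x n‖ = ‖A (zp T (-n) x)‖ := fun x n => ι.norm_map _
  have hs0 : ∀ x, Summable (fun n => ‖η x n‖ ^ 2) := fun x =>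
    summable_of_sum_le (fun n => sq_nonneg _) (fun s => by simpa only [hn] using hA' x s)
  have hs : ∀ x, Summable (fun n => zp T' n (η x n)) := by
    intro x
    rw [summable_iff_vanishing_norm]
    intro ε hε
    obtain ⟨s, hs⟩ := summable_iff_vanishing_norm.1 (hs0 x) (ε ^ 2 / 2) (by positivity)
    refine ⟨s, fun t ht => ?_⟩
    have a := hs t ht
    have b := (hr x t).2
    rw [Real.norm_of_nonneg (sum_nonneg fun _ _ => sq_nonneg _)] at a
    refine lt_of_pow_lt_pow_left₀ 2 hε.le ?_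
    nlinarith [sq_nonneg ε]
  let F0 : H →ₗ[ℂ] H :=
    { toFun := fun x => ∑' n, zp T' n (η x n)
      map_add' := fun x y => by
        rw [← (hs x).tsum_add (hs y)]; simp [η]
      map_smul' := fun c x => by
        rw [RingHom.id_apply, ← (hs x).tsum_const_smul c]; simp [η] }
  have hlim : ∀ x, Filter.Tendsto (fun s : Finset ℤ => ‖∑ n ∈ s, zp T' n (η x n)‖ ^ 2)
      Filter.atTop (nhds (‖F0 x‖ ^ 2)) := fun x => ((hs x).hasSum.norm).pow 2
  have hb : ∀ x, ‖F0 x‖ ≤ 6 * ‖x‖ := by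
    intro x
    refine le_of_pow_le_pow_left₀ two_ne_zero (by positivity) ?_
    refine le_of_tendsto' (hlim x) fun s => ?_
    have a := (hr x s).2
    have b := hA' x s
    simp only [hn] at a
    nlinarith [sq_nonneg ‖x‖]
  refine ⟨F0.mkContinuous 6 hb, ?_, ?_⟩
  · rw [injective_iff_map_eq_zero]
    intro x hx
    have hx' : F0 x = 0 := hx
    have l : 1 / 3 * ‖η x 0‖ ^ 2 ≤ ‖F0 x‖ ^ 2 := by
      refine ge_of_tendsto (hlim x) ?_
      filter_upwards [Filter.eventually_ge_atTop ({0} : Finset ℤ)] with s hs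
      have a := (hr x s).1
      have b : ‖η x 0‖ ^ 2 ≤ ∑ n ∈ s, ‖η x n‖ ^ 2 :=
        single_le_sum (f := fun n => ‖η x n‖ ^ 2) (fun _ _ => sq_nonneg _)
          (hs (mem_singleton_self _))
      linarith
    rw [hx', hn, neg_zero, zp_zero, norm_zero] at l
    refine hA x (norm_eq_zero.1 ?_)
    nlinarith [norm_nonneg (A x)]
  · ext x
    show ∑' n, zp T' n (η (T.1 x) n) = T'.1 (∑' n, zp T' n (η x n))
    rw [T'.1.map_tsum (hs x), ← (Equiv.addLeft (1 : ℤ)).tsum_eq]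
    refine tsum_congr fun n => ?_
    simp only [Equiv.coe_addLeft, η]
    rw [zp_add, zp_one, ← zp_one T, ← zp_add]
    rw [show -(1 + n) + 1 = -n by ring]

theorem Good.conj {T T' : unitary (H →L[ℂ] H)} (h : Good T) (h' : Good T') : IsConj T T' := by
  obtain ⟨F, hF, h1⟩ := h.exF h'
  obtain ⟨G, hG, h2⟩ := h'.exF h
  exact Pool.Agent.Lib.helper12.QSim.conj_of_inj T T' F G hF hG h1 h2

end Pool.Agent.H.MP_dd30de_lc
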