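import Mathlib
import Pool.Agent.H.MP_dd30de_lc.A

namespace Pool.Agent.H.MP_dd30de_lc
open scoped InnerProductSpace Classical
open Finset Filter Topology

variable {H : Type*} [NormedAddCommGroup H] [InnerProductSpace ℂ H] [CompleteSpace H]
variable (b : HilbertBasis ℕ ℂ H)

noncomputable def pr (S : Set ℕ) : H →L[ℂ] H :=
  (Submodule.span ℂ (b '' Sᶜ))ᗮ.starProjection

lemma pr_star (S : Set ℕ) : star (pr b S) = pr b S := (isSelfAdjoint_starProjection _).star_eq

lemma pr_idem (S : Set ℕ) : pr b S * pr b S = pr b S :=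
  Submodule.isIdempotentElem_starProjection _

lemma pr_norm (S : Set ℕ) (x : H) : ‖pr b S x‖ ≤ ‖x‖ :=
  Submodule.norm_starProjection_apply_le _ x

lemma inner_pr (S : Set ℕ) (n : ℕ) (x : H) :
    ⟪b n, pr b S x⟫_ℂ = if n ∈ S then ⟪b n, x⟫_ℂ else 0 := by
  split_ifs with h
  · rw [← sa_inner (pr_star b S)]
    congr 1
    refine Submodule.starProjection_eq_self_iff.2 ?_
    rw [Submodule.mem_orthogonal]
    intro u hu
    induction hu using Submodule.span_induction with
    | mem u hu =>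
      obtain ⟨m, hm, rfl⟩ := hu
      exact b.orthonormal.2 (fun e => hm (e ▸ h))
    | zero => simp
    | add u v _ _ h1 h2 => rw [inner_add_left, h1, h2, add_zero]
    | smul a u _ h1 => rw [inner_smul_left, h1, mul_zero]
  · exact (Submodule.mem_orthogonal _ _).1 (Submodule.starProjection_apply_mem _ x) _
      (Submodule.subset_span ⟨n, h, rfl⟩)

omit [CompleteSpace H] in
lemma bext {x y : H} (h : ∀ n, ⟪b n, x⟫_ℂ = ⟪b n, y⟫_ℂ) : x = y := by
  apply b.repr.injective
  ext n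
  rw [b.repr_apply_apply, b.repr_apply_apply, h]

lemma pr_Iio (M : ℕ) (x : H) : pr b (Set.Iio M) x = ∑ n ∈ range M, ⟪b n, x⟫_ℂ • b n := by
  refine bext b fun n => ?_
  rw [inner_pr]
  split_ifs with h
  · exact (b.orthonormal.inner_right_sum (fun n => ⟪b n, x⟫_ℂ) (mem_range.2 h)).symm
  · rw [inner_sum]
    refine (sum_eq_zero fun m hm => ?_).symm
    rw [inner_smul_right, b.orthonormal.2 (fun e => h (by rw [e]; exact mem_range.1 hm)), mul_zero]

lemma pr_tendsto (x : H) : Tendsto (fun M => pr b (Set.Iio M) x) atTop (𝓝 x) := by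
  simp only [pr_Iio]
  have := (b.hasSum_repr x).tendsto_sum_nat
  simpa only [b.repr_apply_apply] using this

lemma pr_hasSum (a : ℕ → ℤ) (x : H) : HasSum (fun j => pr b {n | a n = j} x) x := by
  have h1 := (Equiv.sigmaFiberEquiv a).hasSum_iff.2 (b.hasSum_repr x)
  refine h1.sigma fun j => ?_
  have h2 := b.hasSum_repr (pr b {n | a n = j} x)
  have h3 : (fun n => b.repr (pr b {n | a n = j} x) n • b n)
      = Set.indicator {n | a n = j} (fun n => b.repr x n • b n) := by
    ext n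
    rw [b.repr_apply_apply, inner_pr, Set.indicator_apply, b.repr_apply_apply]
    split_ifs <;> simp
  rw [h3, ← hasSum_subtype_iff_indicator] at h2
  exact h2

def Tl (N : ℕ → ℕ) (x : H →L[ℂ] H) : Prop :=
  ∀ t, ∑ p ∈ range (N t), ‖pr b (Set.Ici (N (t + 1))) (x (b p))‖ ≤ (1 / 48 : ℝ) ^ t

variable {b}

lemma Tl.far {N : ℕ → ℕ} {x : H →L[ℂ] H} (h : Tl b N x) (t : ℕ) (u v : H)
    (hu : ∀ n, N t ≤ n → ⟪b n, u⟫_ℂ = 0) (hv : ∀ n, n < N (t + 1) → ⟪b n, v⟫_ℂ = 0) :
    ‖⟪v, x u⟫_ℂ‖ ≤ (1 / 48 : ℝ) ^ t * (‖v‖ * ‖u‖) := by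
  have e1 : pr b (Set.Iio (N t)) u = u := bext b fun n => by
    rw [inner_pr]; split_ifs with hn
    · rfl
    · exact (hu n (not_lt.1 hn)).symm
  have e2 : pr b (Set.Ici (N (t + 1))) v = v := bext b fun n => by
    rw [inner_pr]; split_ifs with hn
    · rfl
    · exact (hv n (not_le.1 hn)).symm
  have l : ‖pr b (Set.Ici (N (t + 1))) (x u)‖ ≤ (1 / 48 : ℝ) ^ t * ‖u‖ := by
    conv_lhs => rw [← e1, pr_Iio, map_sum, map_sum]
    refine (norm_sum_le _ _).trans (le_trans ?_ (mul_le_mul_of_nonneg_right (h t) (norm_nonneg u)))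
    rw [sum_mul]
    refine sum_le_sum fun p _ => ?_
    rw [map_smul, map_smul, norm_smul, mul_comm]
    gcongr
    simpa [b.orthonormal.1 p] using norm_inner_le_norm (𝕜 := ℂ) (b p) u
  calc _ = ‖⟪v, pr b (Set.Ici (N (t + 1))) (x u)⟫_ℂ‖ := by rw [← sa_inner (pr_star b _), e2]
    _ ≤ ‖v‖ * ((1 / 48 : ℝ) ^ t * ‖u‖) := (norm_inner_le_norm _ _).trans (by gcongr)
    _ = _ := by ring

lemma far2 {N r : ℕ → ℕ} (hr : ∀ n t, n < N t ↔ r n < t) {x : H →L[ℂ] H} (h : Tl b N x)
    (t d : ℕ) (u v : H) (hv : ∀ n, r n ≠ t → ⟪b n, v⟫_ℂ = 0)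
    (hu : v ≠ 0 → ∀ n, t < r n + 2 + d → ⟪b n, u⟫_ℂ = 0) :
    ‖⟪v, x u⟫_ℂ‖ ≤ (if t < d + 2 then 0 else (1 / 48 : ℝ) ^ (t - 1)) * (‖v‖ * ‖u‖) := by
  by_cases h0 : v = 0
  · simp [h0]
  split_ifs with ht
  · have : u = 0 := bext b fun n => by rw [hu h0 n (by omega), inner_zero_right]
    simp [this]
  · refine h.far (t - 1) u v (fun n hn => hu h0 n ?_) (fun n hn => hv n ?_)
    · have := (hr n (t - 1)).not.1 (not_lt.2 hn); omega
    · have := (hr n _).1 hn; omega

lemma band {N r : ℕ → ℕ} (hN : StrictMono N) (hr : ∀ n t, n < N t ↔ r n < t) {lam : ℕ → ℤ}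
    (hl : ∀ s t, s ≤ t → |lam t - lam s| ≤ t - s) {x : H →L[ℂ] H} (h : Tl b N x)
    (h' : Tl b N (star x)) (j : ℤ) (d : ℕ) (ζ η : H)
    (hζ : ∀ n, lam (r n) + 2 ≠ j → ⟪b n, ζ⟫_ℂ = 0) (hη : ∀ n, lam (r n) ≠ j + d → ⟪b n, η⟫_ℂ = 0) :
    ‖⟪ζ, x η⟫_ℂ‖ ≤ 1 / 12 * (1 / 48 : ℝ) ^ d * (‖ζ‖ * ‖η‖) := by
  let φ : ℕ → ℂ := fun t => ⟪pr b (Set.Iio (N t)) ζ, x (pr b (Set.Iio (N t)) η)⟫_ℂ
  have hE : ∀ t y, pr b (Set.Iio (N (t + 1))) y = pr b (Set.Iio (N t)) y + pr b {n | r n = t} y := by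
    intro t y
    refine bext b fun n => ?_
    simp only [inner_add_right, inner_pr, Set.mem_Iio, hr, Set.mem_ofPred_eq]
    split_ifs <;> first | omega | simp
  have hne : ∀ t y, pr b {n | r n = t} y ≠ 0 → ∃ n, r n = t ∧ ⟪b n, y⟫_ℂ ≠ 0 := by
    intro t y hy
    by_contra hh
    push Not at hh
    refine hy (bext b fun n => ?_)
    rw [inner_pr, inner_zero_right]
    split_ifs with hn
    · exact hh n hn
    · rfl
  have step : ∀ t, ‖φ (t + 1)‖ ≤ ‖φ t‖ +
      2 * (if t < d + 2 then 0 else (1 / 48 : ℝ) ^ (t - 1)) * (‖ζ‖ * ‖η‖) := by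
    intro t
    have e : φ (t + 1) = φ t + (⟪pr b {n | r n = t} ζ, x (pr b (Set.Iio (N (t + 1))) η)⟫_ℂ +
        ⟪pr b (Set.Iio (N t)) ζ, x (pr b {n | r n = t} η)⟫_ℂ) := by
      simp only [φ]
      rw [hE t ζ, inner_add_left]
      conv_lhs => lhs; rw [hE t η, map_add, inner_add_right]
      ring
    have a1 := far2 hr h t d (pr b (Set.Iio (N (t + 1))) η) (pr b {n | r n = t} ζ)
      (fun n hn => by rw [inner_pr]; exact if_neg hn) (fun h0 n hn => by
        obtain ⟨m, hm, hm'⟩ := hne t ζ h0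
        have e1 : lam t + 2 = j := by by_contra hh; exact hm' (hζ m (hm ▸ hh))
        rw [inner_pr]
        split_ifs with hn'
        · refine hη n ?_
          have := (hr n _).1 hn'
          have := abs_le.1 (hl (r n) t (by omega))
          omega
        · rfl)
    have a2 := far2 hr h' t d (pr b (Set.Iio (N t)) ζ) (pr b {n | r n = t} η)
      (fun n hn => by rw [inner_pr]; exact if_neg hn) (fun h0 n hn => by
        obtain ⟨m, hm, hm'⟩ := hne t η h0
        have e1 : lam t = j + d := by by_contra hh; exact hm' (hη m (hm ▸ hh))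
        rw [inner_pr]
        split_ifs with hn'
        · refine hζ n ?_
          have := (hr n _).1 hn'
          have := abs_le.1 (hl (r n) t (by omega))
          omega
        · rfl)
    rw [ContinuousLinearMap.star_eq_adjoint, ContinuousLinearMap.adjoint_inner_right,
      norm_inner_symm] at a2
    set g := (if t < d + 2 then 0 else (1 / 48 : ℝ) ^ (t - 1))
    have hg : 0 ≤ g := by simp only [g]; split_ifs <;> positivity
    have b1 := a1.trans (mul_le_mul_of_nonneg_left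
      (mul_le_mul (pr_norm b _ ζ) (pr_norm b _ η) (norm_nonneg _) (norm_nonneg _)) hg)
    have b2 := a2.trans (mul_le_mul_of_nonneg_left
      (mul_le_mul (pr_norm b _ η) (pr_norm b _ ζ) (norm_nonneg _) (norm_nonneg _)) hg)
    rw [e]
    refine (norm_add_le _ _).trans (add_le_add_right ((norm_add_le _ _).trans ?_) _)
    rw [mul_comm ‖η‖] at b2
    linarith
  have z0 : ∀ t, t ≤ d + 2 → ‖φ t‖ ≤ 0 := by
    intro t
    induction t with
    | zero =>
      intro _
      have : pr b (Set.Iio (N 0)) ζ = 0 := bext b fun n => by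
        rw [inner_pr, if_neg (by simp [hr]), inner_zero_right]
      simp [φ, this]
    | succ t ih =>
      intro ht
      have := step t
      rw [if_pos (by omega)] at this
      linarith [ih (by omega)]
  have hp : 0 ≤ ‖ζ‖ * ‖η‖ := by positivity
  have z1 : ∀ i, ‖φ (i + (d + 2))‖ ≤
      1 / 12 * (1 / 48 : ℝ) ^ d * (1 - (1 / 48 : ℝ) ^ i) * (‖ζ‖ * ‖η‖) := by
    intro i
    induction i with
    | zero => simpa using z0 (d + 2) le_rfl
    | succ i ih =>
      have := step (i + (d + 2))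
      rw [if_neg (by omega), show i + (d + 2) - 1 = d + i + 1 by omega] at this
      rw [show i + 1 + (d + 2) = i + (d + 2) + 1 by omega]
      refine this.trans ((add_le_add_left ih _).trans ?_)
      rw [← add_mul]
      refine mul_le_mul_of_nonneg_right ?_ hp
      have : (0 : ℝ) ≤ (1 / 48 : ℝ) ^ d * (1 / 48 : ℝ) ^ i := by positivity
      rw [pow_succ, pow_succ, pow_add]
      nlinarith
  have lim : Tendsto (fun i => ‖φ (i + (d + 2))‖) atTop (𝓝 ‖⟪ζ, x η⟫_ℂ‖) := by
    have t1 : Tendsto (fun i => N (i + (d + 2))) atTop atTop :=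
      hN.tendsto_atTop.comp (tendsto_add_atTop_nat _)
    exact (((pr_tendsto b ζ).comp t1).inner
      ((x.continuous.tendsto η).comp ((pr_tendsto b η).comp t1))).norm
  refine le_of_tendsto' lim fun i => (z1 i).trans (mul_le_mul_of_nonneg_right ?_ hp)
  refine mul_le_of_le_one_right (by positivity) ?_
  have : (0 : ℝ) ≤ (1 / 48 : ℝ) ^ i := by positivity
  linarith

lemma exLam : ∃ lam : ℕ → ℤ, (∀ s t, s ≤ t → |lam t - lam s| ≤ t - s) ∧
    ∀ j, {t | lam t = j}.Infinite := by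
  let lam : ℕ → ℤ := fun t => (-1) ^ (Nat.sqrt t) * ((t : ℤ) - (Nat.sqrt t : ℤ) ^ 2 - Nat.sqrt t)
  have h1 : ∀ t, |lam (t + 1) - lam t| ≤ 1 := by
    intro t
    rcases Nat.sqrt_succ_le_succ_sqrt t |>.eq_or_lt with h | h
    · have a := Nat.sqrt_le' (t + 1)
      have c := Nat.lt_succ_sqrt' t
      rw [h] at a
      have e : t + 1 = (Nat.sqrt t + 1) ^ 2 := by
        simp only [Nat.succ_eq_add_one] at a c; omega
      have e' : (t : ℤ) = (Nat.sqrt t + 1) ^ 2 - 1 := by
        have := congrArg (Nat.cast : ℕ → ℤ) e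
        push_cast at this; linarith
      have : lam (t + 1) - lam t = (-1) ^ (Nat.sqrt t) := by
        simp only [lam, h, Nat.succ_eq_add_one]
        push_cast
        linear_combination (-2 * (-1) ^ (Nat.sqrt t)) * e'
      rw [this]; simp
    · have h2 : Nat.sqrt (t + 1) = Nat.sqrt t :=
        le_antisymm (Nat.lt_succ_iff.1 h) (Nat.sqrt_le_sqrt (Nat.le_succ t))
      have : lam (t + 1) - lam t = (-1) ^ (Nat.sqrt t) := by
        simp only [lam, h2]; push_cast; ring
      rw [this]; simp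
  refine ⟨lam, fun s t hst => ?_, fun j => ?_⟩
  · induction t, hst using Nat.le_induction with
    | base => simp
    | succ t _ ih =>
      have := abs_sub_le (lam (t + 1)) (lam t) (lam s)
      have := h1 t
      push_cast; linarith
  · refine Set.infinite_of_forall_exists_gt fun M => ?_
    let k := 2 * (M + j.natAbs + 1)
    let i := (k + j).toNat
    have hi : (i : ℤ) = k + j := by omega
    have hs : Nat.sqrt (k * k + i) = k := Nat.sqrt_add_eq k (by omega)
    refine ⟨k * k + i, ?_, ?_⟩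
    · show lam _ = j
      simp only [lam, hs]
      rw [show (-1 : ℤ) ^ k = 1 by simp [k, pow_mul]]
      push_cast; rw [hi]; ring
    · have : M < k := by omega
      nlinarith

end Pool.Agent.H.MP_dd30de_lc
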