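import Mathlib
import Pool.Agent.H.MP_dd30de_lc.B

namespace Pool.Agent.H.MP_dd30de_lc
open scoped InnerProductSpace Classical
open Finset Filter Topology

variable {H : Type*} [NormedAddCommGroup H] [InnerProductSpace ℂ H] [CompleteSpace H]
variable (b : HilbertBasis ℕ ℂ H)

lemma exV (σ : ℕ ≃ ℕ) : ∃ V : unitary (H →L[ℂ] H), ∀ n, V.1 (b n) = b (σ n) := by
  have ho : Orthonormal ℂ (b ∘ σ) := b.orthonormal.comp σ σ.injective
  have hd : ⊤ ≤ (Submodule.span ℂ (Set.range (b ∘ σ))).topologicalClosure := by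
    rw [σ.surjective.range_comp, b.dense_span]
  let b' : HilbertBasis ℕ ℂ H := HilbertBasis.mk ho hd
  refine ⟨Unitary.linearIsometryEquiv.symm (b.repr.trans b'.repr.symm), fun n => ?_⟩
  show b'.repr.symm (b.repr (b n)) = _
  rw [b.repr_self, b'.repr_symm_single, HilbertBasis.coe_mk]; rfl

lemma exIota (S : Set ℕ) (hS : S.Infinite) : ∃ ι : H →ₗᵢ[ℂ] H, ∀ x, pr b S (ι x) = ι x := by
  let τ := hS.natEmbedding
  have ho : Orthonormal ℂ (b ∘ fun n => (τ n : ℕ)) :=
    b.orthonormal.comp _ (Subtype.val_injective.comp τ.injective)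
  refine ⟨ho.orthogonalFamily.linearIsometry.comp b.repr.toLinearIsometry, fun x => ?_⟩
  refine bext b fun n => ?_
  rw [inner_pr]
  split_ifs with hn
  · rfl
  have h1 := (ho.orthogonalFamily.hasSum_linearIsometry (b.repr x)).mapL (innerSL ℂ (b n))
  have h2 : (fun i => (innerSL ℂ (b n)) ((LinearIsometry.toSpanSingleton ℂ H (ho.1 i))
      (b.repr x i))) = fun _ => 0 := by
    ext i
    simp only [innerSL_apply_apply, LinearIsometry.toSpanSingleton_apply, inner_smul_right,
      Function.comp]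
    rw [b.orthonormal.2 (fun e => hn (by rw [e]; exact (τ i).2)), mul_zero]
  rw [h2] at h1
  exact hasSum_zero.unique h1

lemma wand_of (a : ℕ → ℤ) (T : unitary (H →L[ℂ] H))
    (hT : ∀ j (d : ℕ) x, ‖pr b {n | a n = j} (T.1 (pr b {n | a n = j + d} x))‖ ≤
      1 / 12 * (1 / 48 : ℝ) ^ d * ‖pr b {n | a n = j + d} x‖) (k : ℤ) :
    Wand T (pr b {n | a n = k}) := by
  have hid : ∀ i y, pr b {n | a n = i} (pr b {n | a n = i} y) = pr b {n | a n = i} y := fun i y =>
    congrArg (fun A : H →L[ℂ] H => A y) (pr_idem b _)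
  have hk : ∀ j i y, ‖pr b {n | a n = j} (T.1 (pr b {n | a n = i} y))‖ ≤
      1 / 12 * (1 / 2 : ℝ) ^ (i - j).natAbs * (24 : ℝ) ^ (j - i) * ‖pr b {n | a n = i} y‖ := by
    intro j i y
    rcases le_or_gt j i with h | h
    · obtain ⟨d, rfl⟩ : ∃ d : ℕ, i = j + d := ⟨(i - j).toNat, by omega⟩
      refine (hT j d y).trans (le_of_eq ?_)
      rw [show (j + d - j).natAbs = d by omega, show j - (j + d) = -(d : ℤ) by ring, zpow_neg,
        zpow_natCast, ← inv_pow, show (1 / 48 : ℝ) = 1 / 2 * 24⁻¹ by norm_num, mul_pow]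
      ring
    · obtain ⟨d, rfl⟩ : ∃ d : ℕ, j = i + (d + 1 : ℕ) := ⟨(j - i - 1).toNat, by omega⟩
      refine (pr_norm b _ _).trans ?_
      rw [ContinuousLinearMap.norm_map_of_mem_unitary T.2]
      refine le_mul_of_one_le_left (norm_nonneg _) ?_
      rw [show (i - (i + (d + 1 : ℕ))).natAbs = d + 1 by omega,
        show i + (d + 1 : ℕ) - i = (d + 1 : ℕ) by ring, zpow_natCast, mul_assoc, ← mul_pow,
        pow_succ]
      have : (1 : ℝ) ≤ (1 / 2 * 24) ^ d := one_le_pow₀ (by norm_num)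
      linarith
  have main : ∀ (n : ℕ) x j, ‖pr b {n | a n = j} (zp T n (pr b {n | a n = k} x))‖ ≤
      (24 : ℝ) ^ (j - k) * (1 / 4) ^ n * ‖x‖ := by
    intro n x
    induction n with
    | zero =>
      intro j
      rw [Nat.cast_zero, zp_zero]
      by_cases h : j = k
      · subst h; rw [hid]; simpa using pr_norm b _ x
      · have : pr b {n | a n = j} (pr b {n | a n = k} x) = 0 := bext b fun n => by
          simp only [inner_pr, Set.mem_ofPred_eq, inner_zero_right]
          split_ifs with h1 h2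
          · exact absurd (h1.symm.trans h2) h
          · rfl
          · rfl
        rw [this, norm_zero]; positivity
    | succ n ih =>
      intro j
      rw [Nat.cast_succ, add_comm, zp_add, zp_one]
      set y := zp T n (pr b {n | a n = k} x)
      have h1 := (pr_hasSum b a y).mapL ((pr b {n | a n = j}).comp T.1)
      have h2 := (geomZ (1 / 2) (by norm_num) (by norm_num) j).mul_left
        (1 / 12 * (24 : ℝ) ^ (j - k) * (1 / 4) ^ n * ‖x‖)
      refine (h1.norm_le_of_bounded h2 fun i => ?_).trans (le_of_eq (by ring))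
      refine (hk j i y).trans ((mul_le_mul_of_nonneg_left (ih i) (by positivity)).trans
        (le_of_eq ?_))
      rw [show j - k = (j - i) + (i - k) by ring, zpow_add₀ (by norm_num)]
      ring
  refine ⟨pr_star b _, pr_idem b _, fun n _ x => ?_⟩
  simpa using main n x k

theorem exGood (N : ℕ → ℕ) (hN : StrictMono N) (h0 : N 0 = 0) :
    ∃ V : unitary (H →L[ℂ] H), ∀ x : unitary (H →L[ℂ] H),
      Tl b N x.1 → Tl b N (star x.1) → Good (x * V) := by
  have hex : ∀ n, ∃ t, n < N (t + 1) := fun n => ⟨n, lt_of_lt_of_le (Nat.lt_succ_self n) (hN.le_apply)⟩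
  let r : ℕ → ℕ := fun n => Nat.find (hex n)
  have hr : ∀ n t, n < N t ↔ r n < t := by
    intro n t
    cases t with
    | zero => simp [h0]
    | succ t =>
      rw [Nat.lt_succ_iff, Nat.find_le_iff]
      exact ⟨fun h => ⟨t, le_rfl, h⟩, fun ⟨m, hm, h⟩ => h.trans_le (hN.monotone (by omega))⟩
  have hrN : ∀ t, r (N t) = t := by
    intro t
    have a := (hr (N t) t).not.1 (lt_irrefl _)
    have c := (hr (N t) (t + 1)).1 (hN (Nat.lt_succ_self t))
    omega
  obtain ⟨lam, hl, hinf⟩ := exLam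
  have hi : ∀ j, {n | lam (r n) = j}.Infinite := by
    intro j
    refine ((hinf j).image hN.injective.injOn).mono ?_
    rintro _ ⟨t, ht, rfl⟩
    show lam (r (N t)) = j
    rw [hrN]; exact ht
  have hi' : ∀ j, {n | lam (r n) + 2 = j}.Infinite := fun j =>
    (hi (j - 2)).mono fun n hn => by simp only [Set.mem_ofPred_eq] at hn ⊢; omega
  have he : ∀ j, Nonempty ({n // lam (r n) + 2 = j} ≃ {n // lam (r n) = j}) := by
    intro j
    have : Infinite {n // lam (r n) + 2 = j} := (hi' j).to_subtype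
    have : Infinite {n // lam (r n) = j} := (hi j).to_subtype
    exact nonempty_equiv_of_countable
  let σ : ℕ ≃ ℕ := Equiv.ofFiberEquiv (f := fun n => lam (r n) + 2) (g := fun n => lam (r n))
    (fun j => (he j).some)
  have hσ : ∀ n, lam (r (σ n)) = lam (r n) + 2 := fun n =>
    Equiv.ofFiberEquiv_map (f := fun n => lam (r n) + 2) (g := fun n => lam (r n)) _ n
  obtain ⟨V, hV⟩ := exV b σ
  obtain ⟨ι, hι⟩ := exIota b _ (hi' 0)
  refine ⟨V, fun x h h' => ⟨fun j => pr b {n | lam (r n) + 2 = j}, ι,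
    wand_of b (fun n => lam (r n) + 2) _ fun j d y => ?_, fun y hy => ?_, hι⟩⟩
  · set η := pr b {n | lam (r n) + 2 = j + d} y with hη
    show ‖pr b _ (x.1 (V.1 η))‖ ≤ _
    set ζ := pr b {n | lam (r n) + 2 = j} (x.1 (V.1 η)) with hζ
    have k := band hN hr hl h h' j d ζ (V.1 η) (fun n hn => by rw [hζ, inner_pr]; exact if_neg hn)
      (fun n hn => by
        obtain ⟨m, rfl⟩ := σ.surjective n
        rw [← hV, ContinuousLinearMap.inner_map_map_of_mem_unitary V.2, hη, inner_pr]
        rw [hσ] at hn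
        exact if_neg hn)
    rw [ContinuousLinearMap.norm_map_of_mem_unitary V.2] at k
    have e : ⟪ζ, x.1 (V.1 η)⟫_ℂ = ⟪ζ, ζ⟫_ℂ := by
      conv_rhs => rw [hζ, ← sa_inner (pr_star b _)]
      congr 1
      exact (congrArg (fun A : H →L[ℂ] H => A (x.1 (V.1 η))) (pr_idem b _)).symm
    rw [e, inner_self_eq_norm_sq_to_K] at k
    simp only [norm_pow, RCLike.norm_ofReal, abs_norm] at k
    rcases (norm_nonneg ζ).eq_or_lt with h1 | h1
    · rw [← h1]; positivity
    · nlinarith
  · have := pr_hasSum b (fun n => lam (r n) + 2) y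
    simp only [hy] at this
    exact this.unique hasSum_zero

lemma pr_Ici (M : ℕ) (x : H) : pr b (Set.Ici M) x = x - pr b (Set.Iio M) x := by
  refine bext b fun n => ?_
  simp only [inner_sub_right, inner_pr, Set.mem_Ici, Set.mem_Iio]
  split_ifs <;> first | omega | simp

lemma pr_Ici_norm (M : ℕ) (x : H) :
    ‖pr b (Set.Ici M) x‖ = √(‖x‖ ^ 2 - ‖pr b (Set.Iio M) x‖ ^ 2) := by
  have e : x = pr b (Set.Iio M) x + pr b (Set.Ici M) x := by rw [pr_Ici]; abel
  have o : ⟪pr b (Set.Iio M) x, pr b (Set.Ici M) x⟫_ℂ = 0 := by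
    rw [sa_inner (pr_star b _), pr_Ici, map_sub]
    have := congrArg (fun A : H →L[ℂ] H => A x) (pr_idem b (Set.Iio M))
    simp only [mul_apply_eq_comp] at this
    rw [this, sub_self, inner_zero_right]
  have := norm_add_sq_eq_norm_sq_add_norm_sq_of_inner_eq_zero _ _ o
  rw [← e] at this
  rw [sq, this, sq, add_sub_cancel_left, Real.sqrt_mul_self (norm_nonneg _)]

open MeasureTheory in
theorem exN [MeasurableSpace H] [BorelSpace H] [SecondCountableTopology H]
    [MeasurableSpace (unitary (H →L[ℂ] H))]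
    (hm : ∀ n, Measurable (fun U : unitary (H →L[ℂ] H) => U.1 (b n)))
    (μ : Measure (unitary (H →L[ℂ] H))) [IsProbabilityMeasure μ] :
    ∃ N : ℕ → ℕ, StrictMono N ∧ N 0 = 0 ∧ μ {x | Tl b N x.1 ∧ Tl b N (star x.1)} ≠ 0 := by
  let G : ℕ → ℕ → unitary (H →L[ℂ] H) → ℝ := fun M L x =>
    ∑ p ∈ range M, ‖pr b (Set.Ici L) (x.1 (b p))‖ +
      ∑ p ∈ range M, ‖pr b (Set.Ici L) (star x.1 (b p))‖
  have hG : ∀ M L, Measurable (G M L) := by
    intro M L
    refine (Finset.measurable_sum _ fun p _ => ?_).add (Finset.measurable_sum _ fun p _ => ?_)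
    · exact ((pr b _).continuous.measurable.comp (hm p)).norm
    · have : (fun x : unitary (H →L[ℂ] H) => ‖pr b (Set.Ici L) (star x.1 (b p))‖) = fun x =>
          √(‖b p‖ ^ 2 - ‖∑ n ∈ range L, ⟪x.1 (b n), b p⟫_ℂ • b n‖ ^ 2) := by
        ext x
        rw [pr_Ici_norm, pr_Iio,
          ContinuousLinearMap.norm_map_of_mem_unitary (Unitary.star_mem x.2)]
        simp only [ContinuousLinearMap.star_eq_adjoint, ContinuousLinearMap.adjoint_inner_right]
      rw [this]
      refine (measurable_const.sub (Measurable.pow_const (Measurable.norm ?_) 2)).sqrt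
      exact Finset.measurable_sum _ fun n _ => ((hm n).inner measurable_const).smul_const _
  have hlim0 : ∀ y : H, Tendsto (fun L => ‖pr b (Set.Ici L) y‖) atTop (𝓝 0) := by
    intro y
    simp only [pr_Ici]
    have := ((tendsto_const_nhds (x := y)).sub (pr_tendsto b y)).norm
    simpa using this
  have hlim : ∀ M x, Tendsto (fun L => G M L x) atTop (𝓝 0) := by
    intro M x
    have := (tendsto_finsetSum (range M) fun p _ => hlim0 (x.1 (b p))).add
      (tendsto_finsetSum (range M) fun p _ => hlim0 (star x.1 (b p)))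
    simpa using this
  have hex : ∀ t M, ∃ L, M < L ∧
      μ {x | (1 / 48 : ℝ) ^ t < G M L x} ≤ ENNReal.ofReal ((1 / 4) * (1 / 2 : ℝ) ^ t) := by
    intro t M
    have h1 : TendstoInMeasure μ (G M) atTop (fun _ => 0) :=
      tendstoInMeasure_of_tendsto_ae (fun L => (hG M L).aestronglyMeasurable)
        (ae_of_all _ (hlim M))
    rw [tendstoInMeasure_iff_dist] at h1
    have h2 := (h1 ((1 / 48 : ℝ) ^ t) (by positivity)).eventually
      (ge_mem_nhds (ENNReal.ofReal_pos.2 (by positivity : 0 < (1 / 4) * (1 / 2 : ℝ) ^ t)))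
    obtain ⟨L, h3, h4⟩ := ((eventually_gt_atTop M).and h2).exists
    refine ⟨L, h3, (measure_mono fun x hx => ?_).trans h4⟩
    simp only [Set.mem_ofPred_eq, dist_zero_right] at hx ⊢
    exact hx.le.trans (le_abs_self _)
  choose f hf hf' using hex
  let N : ℕ → ℕ := fun t => Nat.rec 0 (fun t M => f t M) t
  refine ⟨N, strictMono_nat_of_lt_succ fun t => hf t (N t), rfl, fun h0 => ?_⟩
  have hsub : (Set.univ : Set (unitary (H →L[ℂ] H))) ⊆ {x | Tl b N x.1 ∧ Tl b N (star x.1)} ∪
      ⋃ t, {x | (1 / 48 : ℝ) ^ t < G (N t) (N (t + 1)) x} := by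
    intro x _
    by_contra hh
    simp only [Set.mem_union, Set.mem_iUnion, Set.mem_ofPred_eq, not_or, not_exists, not_lt] at hh
    refine hh.1 ⟨fun t => le_trans ?_ (hh.2 t), fun t => le_trans ?_ (hh.2 t)⟩
    · exact le_add_of_nonneg_right (sum_nonneg fun _ _ => norm_nonneg _)
    · exact le_add_of_nonneg_left (sum_nonneg fun _ _ => norm_nonneg _)
  have h1 := (measure_mono (μ := μ) hsub).trans (measure_union_le _ _)
  rw [h0, zero_add, measure_univ] at h1
  have h2 := h1.trans ((measure_iUnion_le _).trans (ENNReal.tsum_le_tsum fun t => hf' t (N t)))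
  rw [← ENNReal.ofReal_tsum_of_nonneg (fun _ => by positivity)
    (summable_geometric_two.mul_left _), tsum_mul_left, tsum_geometric_two,
    ENNReal.one_le_ofReal] at h2
  norm_num at h2

lemma tl_one : Tl b id (1 : H →L[ℂ] H) := by
  intro t
  refine le_trans (le_of_eq (sum_eq_zero fun p hp => ?_)) (by positivity)
  rw [norm_eq_zero]
  refine bext b fun n => ?_
  rw [inner_pr, inner_zero_right]
  split_ifs with h
  · refine b.orthonormal.2 fun e => ?_
    have := mem_range.1 hp
    simp only [id, Set.mem_Ici] at h this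
    omega
  · rfl

open MeasureTheory in
theorem main [MeasurableSpace H] [BorelSpace H] [SecondCountableTopology H]
    [MeasurableSpace (unitary (H →L[ℂ] H))]
    (hm : ∀ n, Measurable (fun U : unitary (H →L[ℂ] H) => U.1 (b n))) :
    ∃ a : unitary (H →L[ℂ] H), ∀ μ : Measure (unitary (H →L[ℂ] H)), IsProbabilityMeasure μ →
      ∃ V : unitary (H →L[ℂ] H), μ {x | IsConj a (x * V)} ≠ 0 := by
  obtain ⟨V0, hV0⟩ := exGood b id strictMono_id rfl
  have g0 := hV0 1 (tl_one b) (by simpa using tl_one b)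
  refine ⟨1 * V0, fun μ hμ => ?_⟩
  obtain ⟨N, h1, h2, h3⟩ := exN b hm μ
  obtain ⟨V, hV⟩ := exGood b N h1 h2
  exact ⟨V, fun h => h3 (measure_mono_null (fun x hx => g0.conj (hV x hx.1 hx.2)) h)⟩

end Pool.Agent.H.MP_dd30de_lc
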